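import Pool.Agent.Helper22.G4.GenFam
import Pool.Agent.Helper22.G4.St.A3
import Pool.Agent.Helper22.G4.St.A4
import Pool.Agent.Helper22.G4.St.G3

/-! # G4-G4: third step (the `q`-vertices) -/

namespace Pool.Agent.Helper71.G4

open Submodule Pool.Agent.Helper22.G4

variable {α φ : Type}

section basic

variable (D : Data α φ)

/-- a member of `fam1` -/
def FF (f g : φ) : Set (W α φ) := (D.Fs f ∩ D.Fs g) ∪ {W.x f}

variable {D}

theorem v_mem_Fs {f : φ} {a : α} : W.v a ∈ D.Fs f ↔ a ∈ D.verts ∧ D.mem f a := by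
  constructor
  · rintro ⟨b, hb, hf, h⟩
    obtain rfl : a = b := Sum.inl_injective h
    exact ⟨hb, hf⟩
  · rintro ⟨h1, h2⟩
    exact ⟨a, h1, h2, rfl⟩

theorem x_mem_Fs {f g : φ} : W.x g ∉ D.Fs f := by
  rintro ⟨b, -, -, h⟩
  cases h

theorem p_mem_Fs {f : φ} {R : Flat α φ} : W.p R ∉ D.Fs f := by
  rintro ⟨b, -, -, h⟩
  cases h

theorem q_mem_Fs {f : φ} {R : Flat α φ} : W.q R ∉ D.Fs f := by
  rintro ⟨b, -, -, h⟩
  cases h

theorem v_mem_FF {f g : φ} {a : α} :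
    W.v a ∈ FF D f g ↔ a ∈ D.verts ∧ D.mem f a ∧ D.mem g a := by
  unfold FF
  rw [Set.mem_union, Set.mem_inter_iff, v_mem_Fs, v_mem_Fs, Set.mem_singleton_iff]
  constructor
  · rintro (⟨⟨h1, h2⟩, -, h3⟩ | h)
    · exact ⟨h1, h2, h3⟩
    · cases h
  · rintro ⟨h1, h2, h3⟩
    exact Or.inl ⟨⟨h1, h2⟩, h1, h3⟩

theorem x_mem_FF {f g k : φ} : W.x k ∈ FF D f g ↔ k = f := by
  unfold FF
  rw [Set.mem_union, Set.mem_inter_iff, Set.mem_singleton_iff]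
  constructor
  · rintro (⟨h, -⟩ | h)
    · exact absurd h x_mem_Fs
    · exact Sum.inl_injective (Sum.inr_injective h)
  · rintro rfl
    exact Or.inr rfl

theorem p_mem_FF {f g : φ} {R : Flat α φ} : W.p R ∉ FF D f g := by
  rintro (⟨h, -⟩ | h)
  · exact p_mem_Fs h
  · cases h

theorem v_mem_Ps {R : Flat α φ} {a : α} : W.v a ∈ Ps R ↔ a ∈ R.1 := by
  unfold Ps
  constructor
  · rintro (⟨b, hb, h⟩ | h)
    · obtain rfl : a = b := Sum.inl_injective h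
      exact hb
    · cases h
  · intro h
    exact Or.inl ⟨a, h, rfl⟩

theorem x_mem_Ps {R : Flat α φ} {f : φ} : W.x f ∈ Ps R ↔ f = R.2.1 := by
  unfold Ps
  constructor
  · rintro (⟨b, hb, h⟩ | h)
    · cases h
    · exact Sum.inl_injective (Sum.inr_injective h)
  · rintro rfl
    exact Or.inr rfl

theorem p_mem_Ps {R S : Flat α φ} : W.p S ∉ Ps R := by
  rintro (⟨b, hb, h⟩ | h)
  · cases h
  · cases h

theorem v_mem_Zs {R : Flat α φ} {a : α} : W.v a ∈ Zs R ↔ a ∈ R.1 := by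
  unfold Zs
  constructor
  · rintro (⟨b, hb, h⟩ | h)
    · obtain rfl : a = b := Sum.inl_injective h
      exact hb
    · cases h
  · intro h
    exact Or.inl ⟨a, h, rfl⟩

theorem x_mem_Zs {R : Flat α φ} {f : φ} : W.x f ∉ Zs R := by
  rintro (⟨b, hb, h⟩ | h)
  · cases h
  · cases h

theorem p_mem_Zs {R S : Flat α φ} : W.p S ∈ Zs R ↔ S = R := by
  unfold Zs
  constructor
  · rintro (⟨b, hb, h⟩ | h)
    · cases h
    · exact Sum.inl_injective (Sum.inr_injective (Sum.inr_injective h))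
  · rintro rfl
    exact Or.inr rfl

theorem q_mem_Zs {R S : Flat α φ} : W.q S ∉ Zs R := by
  rintro (⟨b, hb, h⟩ | h)
  · cases h
  · cases h

theorem q_mem_Ps {R S : Flat α φ} : W.q S ∉ Ps R := by
  rintro (⟨b, hb, h⟩ | h)
  · cases h
  · cases h

theorem q_mem_FF {f g : φ} {R : Flat α φ} : W.q R ∉ FF D f g := by
  rintro (⟨h, -⟩ | h)
  · exact q_mem_Fs h
  · cases h

theorem mem_fam1 {Z : Set (W α φ)} :
    Z ∈ D.fam1 ↔ ∃ f ∈ D.fcodes, ∃ g ∈ D.fcodes, f ≠ g ∧ Z = FF D f g := Iff.rfl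

/-! ## facts on a flat -/

theorem shape (hD : D.Good) {R : Flat α φ} (hR : R ∈ D.flats) :
    ∃ (a0 a1 a2 a3 : α) (l : List α), R.1 = a0 :: a1 :: a2 :: a3 :: l := by
  have h := hD.len R hR
  match hl : R.1 with
  | [] => rw [hl] at h; simp at h
  | [_] => rw [hl] at h; simp at h
  | [_, _] => rw [hl] at h; simp at h
  | [_, _, _] => rw [hl] at h; simp at h
  | a0 :: a1 :: a2 :: a3 :: l => exact ⟨a0, a1, a2, a3, l, rfl⟩

theorem mem_both (hD : D.Good) {R : Flat α φ} (hR : R ∈ D.flats) {a : α} (ha : a ∈ R.1) :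
    a ∈ D.verts ∧ D.mem R.2.1 a ∧ D.mem R.2.2 a :=
  ⟨hD.sub R hR a ha, (hD.inter R hR a (hD.sub R hR a ha)).2 ha⟩

theorem eIn_iff {R : Flat α φ} {f : φ} : D.eIn R f = true ↔ ∀ a ∈ R.1.take 2, D.mem f a := by
  unfold Data.eIn
  rw [List.all_eq_true]

theorem mem_of_take {l : List α} {a : α} (h : a ∈ l.take 2) : a ∈ l := List.mem_of_mem_take h

theorem eIn_self1 (hD : D.Good) {R : Flat α φ} (hR : R ∈ D.flats) : D.eIn R R.2.1 :=
  eIn_iff.2 fun _ ha => (mem_both hD hR (mem_of_take ha)).2.1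

theorem eIn_self2 (hD : D.Good) {R : Flat α φ} (hR : R ∈ D.flats) : D.eIn R R.2.2 :=
  eIn_iff.2 fun _ ha => (mem_both hD hR (mem_of_take ha)).2.2

theorem es_sub_FF (hD : D.Good) {R : Flat α φ} (hR : R ∈ D.flats) {f g : φ} :
    es R ⊆ FF D f g ↔ D.eIn R f ∧ D.eIn R g := by
  rw [eIn_iff, eIn_iff]
  constructor
  · intro h
    exact ⟨fun a ha => (v_mem_FF.1 (h ⟨a, ha, rfl⟩)).2.1, fun a ha => (v_mem_FF.1 (h ⟨a, ha, rfl⟩)).2.2⟩
  · rintro ⟨h1, h2⟩ w ⟨a, ha, rfl⟩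
    exact v_mem_FF.2 ⟨hD.sub R hR a (mem_of_take ha), h1 a ha, h2 a ha⟩

theorem es_sub_Ps (hD : D.Good) {R S : Flat α φ} (hR : R ∈ D.flats) (hS : S ∈ D.flats)
    (h : es R ⊆ Ps S) : R = S := by
  by_contra hne
  have h1 : D.eIn R S.2.1 := eIn_iff.2 fun a ha =>
    (mem_both hD hS (v_mem_Ps.1 (h ⟨a, ha, rfl⟩))).2.1
  have h2 : D.eIn R S.2.2 := eIn_iff.2 fun a ha =>
    (mem_both hD hS (v_mem_Ps.1 (h ⟨a, ha, rfl⟩))).2.2
  exact hD.ne S hS (hD.sep R hR S hS hne _ (hD.mem1 S hS) _ (hD.mem2 S hS) h1 h2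
    (eIn_self1 hD hS) (eIn_self2 hD hS))

theorem es_sub_Ps_self (R : Flat α φ) : es R ⊆ Ps R := by
  rintro w ⟨a, ha, rfl⟩
  exact v_mem_Ps.2 (mem_of_take ha)

theorem es_sub_Zs_self (R : Flat α φ) : es R ⊆ Zs R := by
  rintro w ⟨a, ha, rfl⟩
  exact v_mem_Zs.2 (mem_of_take ha)

theorem es_sub_of_insert_p {R S : Flat α φ} {Y : Set (W α φ)}
    (h : es R ⊆ (Ps S ∩ Y) ∪ {W.p S}) : es R ⊆ Ps S ∩ Y := by
  rintro w ⟨a, ha, rfl⟩
  rcases h ⟨a, ha, rfl⟩ with h1 | h1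
  · exact h1
  · cases h1

theorem fam2_unique (hD : D.Good) {R S : Flat α φ} (hR : R ∈ D.flats) (hS : S ∈ D.flats)
    {Z : Set (W α φ)} (hZ : Z ∈ D.fam2) (h1 : es R ⊆ Z) (h2 : es S ⊆ Z) : R = S := by
  rcases hZ with ⟨⟨f, hf, g, hg, hne, rfl⟩, -⟩ | ⟨T, hT, Y, -, -, rfl⟩
  · by_contra hRS
    have h3 := (es_sub_FF hD hR).1 h1
    have h4 := (es_sub_FF hD hS).1 h2
    exact hne (hD.sep R hR S hS hRS f hf g hg h3.1 h3.2 h4.1 h4.2)
  · rw [es_sub_Ps hD hR hT ((es_sub_of_insert_p h1).trans Set.inter_subset_left),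
      es_sub_Ps hD hS hT ((es_sub_of_insert_p h2).trans Set.inter_subset_left)]

/-- a facet containing two opposite vertices of a flat -/
theorem facet_of_sub (hD : D.Good) {R : Flat α φ} (hR : R ∈ D.flats) {f : φ} (hf : f ∈ D.fcodes)
    (h : ∀ a ∈ R.1, D.mem f a) : f = R.2.1 ∨ f = R.2.2 := by
  obtain ⟨a0, a1, a2, a3, l, hl⟩ := shape hD hR
  have hnd := hD.nd R hR
  rw [hl] at hnd h
  simp only [List.nodup_cons, List.mem_cons, not_or] at hnd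
  obtain ⟨⟨h01, h02, h03, h0l⟩, ⟨h12, h13, h1l⟩, ⟨h23, h2l⟩, h3l, -⟩ := hnd
  refine hD.diag R hR a0 (by rw [hl]; simp) a2 (by rw [hl]; simp) h02 ?_ ?_ f hf
    (h a0 (by simp)) (h a2 (by simp))
  · rw [hl]
    unfold cycPairs
    intro hm
    simp only [List.tail_cons, List.take_succ_cons, List.take_zero, List.cons_append,
      List.zip_cons_cons, List.mem_cons, Prod.mk.injEq] at hm
    rcases hm with ⟨-, h5⟩ | ⟨h5, -⟩ | ⟨h5, -⟩ | h5
    · exact h12 h5.symm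
    · exact h01 h5
    · exact h02 h5
    · have h6 := (List.of_mem_zip h5).1
      simp only [List.mem_cons] at h6
      rcases h6 with h6 | h6
      · exact h03 h6
      · exact h0l h6
  · rw [hl]
    unfold cycPairs
    intro hm
    simp only [List.tail_cons, List.take_succ_cons, List.take_zero, List.cons_append,
      List.zip_cons_cons, List.mem_cons, Prod.mk.injEq] at hm
    rcases hm with ⟨h5, -⟩ | ⟨h5, -⟩ | ⟨-, h5⟩ | h5
    · exact h02 h5.symm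
    · exact h12 h5.symm
    · exact h03 h5
    · have h6 := (List.of_mem_zip h5).1
      simp only [List.mem_cons] at h6
      rcases h6 with h6 | h6
      · exact h23 h6
      · exact h2l h6

/-- a third facet at the special edge -/
theorem third (hD : D.Good) {R : Flat α φ} (hR : R ∈ D.flats) :
    ∃ g ∈ D.fcodes, D.eIn R g ∧ g ≠ R.2.1 ∧ g ≠ R.2.2 := by
  obtain ⟨a0, a1, a2, a3, l, hl⟩ := shape hD hR
  have hnd := hD.nd R hR
  rw [hl] at hnd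
  simp only [List.nodup_cons, List.mem_cons, not_or] at hnd
  obtain ⟨⟨h01, h02, h03, h0l⟩, ⟨h12, h13, h1l⟩, ⟨h23, h2l⟩, h3l, -⟩ := hnd
  have he : (a0, a1) ∈ cycPairs R.1 := by
    rw [hl]
    unfold cycPairs
    simp
  have h2 : a2 ∈ R.1 := by rw [hl]; simp
  have h3 := mem_both hD hR h2
  obtain ⟨f, hf, hf0, hf1, hf2⟩ := (hD.edge R hR _ he).2 a2 h3.1 (Ne.symm h02) (Ne.symm h12)
  refine ⟨f, hf, eIn_iff.2 ?_, ?_, ?_⟩
  · intro a ha
    rw [hl] at ha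
    simp only [List.take_succ_cons, List.take_zero, List.mem_cons, List.not_mem_nil,
      or_false] at ha
    rcases ha with rfl | rfl
    · exact hf0
    · exact hf1
  · rintro rfl
    exact hf2 h3.2.1
  · rintro rfl
    exact hf2 h3.2.2

/-- `Zs R` is in `fam2` -/
theorem FF_sub_iff (hD : D.Good) {R : Flat α φ} (hR : R ∈ D.flats) {f g : φ}
    (hf : f ∈ D.fcodes) (hg : g ∈ D.fcodes) (hne : f ≠ g) (hPs : FF D f g ≠ Ps R)
    (h : ∀ a ∈ R.1, W.v a ∈ FF D f g) : f = R.2.2 ∧ g = R.2.1 := by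
  have h1 := facet_of_sub hD hR hf fun a ha => (v_mem_FF.1 (h a ha)).2.1
  have h2 := facet_of_sub hD hR hg fun a ha => (v_mem_FF.1 (h a ha)).2.2
  rcases h1 with h1 | h1 <;> rcases h2 with h2 | h2
  · exact absurd (h1.trans h2.symm) hne
  · exfalso
    apply hPs
    rw [h1, h2]
    ext w
    rcases w with a | f' | S | S
    · change W.v a ∈ _ ↔ W.v a ∈ _
      rw [v_mem_FF, v_mem_Ps]
      constructor
      · rintro ⟨h3, h4⟩
        exact (hD.inter R hR a h3).1 h4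
      · exact mem_both hD hR
    · change W.x f' ∈ _ ↔ W.x f' ∈ _
      rw [x_mem_FF, x_mem_Ps]
    · change W.p S ∈ _ ↔ W.p S ∈ _
      exact iff_of_false p_mem_FF p_mem_Ps
    · change W.q S ∈ _ ↔ W.q S ∈ _
      exact iff_of_false q_mem_FF q_mem_Ps
  · exact ⟨h1, h2⟩
  · exact absurd (h1.trans h2.symm) hne

theorem v_mem_FF_self (hD : D.Good) {R : Flat α φ} (hR : R ∈ D.flats) {a : α} :
    W.v a ∈ FF D R.2.2 R.2.1 ↔ a ∈ R.1 := by
  rw [v_mem_FF]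
  constructor
  · rintro ⟨h3, h4, h5⟩
    exact (hD.inter R hR a h3).1 ⟨h5, h4⟩
  · intro h
    have := mem_both hD hR h
    exact ⟨this.1, this.2.2, this.2.1⟩

theorem Zs_eq (hD : D.Good) {R : Flat α φ} (hR : R ∈ D.flats) :
    (Ps R ∩ FF D R.2.2 R.2.1) ∪ {W.p R} = Zs R := by
  ext w
  rw [Set.mem_union, Set.mem_inter_iff, Set.mem_singleton_iff]
  rcases w with a | f' | S | S
  · change (W.v a ∈ _ ∧ W.v a ∈ _) ∨ W.v a = _ ↔ W.v a ∈ _
    rw [v_mem_Ps, v_mem_FF_self hD hR, v_mem_Zs]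
    constructor
    · rintro (h | h)
      · exact h.1
      · cases h
    · intro h
      exact Or.inl ⟨h, h⟩
  · change (W.x f' ∈ _ ∧ W.x f' ∈ _) ∨ W.x f' = _ ↔ W.x f' ∈ _
    rw [x_mem_Ps, x_mem_FF]
    refine iff_of_false ?_ x_mem_Zs
    rintro (⟨h1, h2⟩ | h)
    · exact hD.ne R hR (h1.symm.trans h2)
    · cases h
  · change (W.p S ∈ _ ∧ W.p S ∈ _) ∨ W.p S = _ ↔ W.p S ∈ _
    rw [p_mem_Zs]
    constructor
    · rintro (⟨h, -⟩ | h)
      · exact absurd h p_mem_Ps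
      · exact Sum.inl_injective (Sum.inr_injective (Sum.inr_injective h))
    · rintro rfl
      exact Or.inr rfl
  · change (W.q S ∈ _ ∧ W.q S ∈ _) ∨ W.q S = _ ↔ W.q S ∈ _
    refine iff_of_false ?_ q_mem_Zs
    rintro (⟨h, -⟩ | h)
    · exact q_mem_Ps h
    · cases h

theorem FF_self_ne_Ps (hD : D.Good) {R S : Flat α φ} (hR : R ∈ D.flats) (hS : S ∈ D.flats) :
    FF D R.2.2 R.2.1 ≠ Ps S := by
  intro h
  have h1 : es R ⊆ Ps S := by
    rw [← h, es_sub_FF hD hR]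
    exact ⟨eIn_self2 hD hR, eIn_self1 hD hR⟩
  obtain rfl := es_sub_Ps hD hR hS h1
  have h2 : W.x R.2.2 ∈ FF D R.2.2 R.2.1 := x_mem_FF.2 rfl
  rw [h, x_mem_Ps] at h2
  exact hD.ne R hR h2.symm

theorem FF_mem_fam1 {f g : φ} (hf : f ∈ D.fcodes) (hg : g ∈ D.fcodes) (hne : f ≠ g) :
    FF D f g ∈ D.fam1 := ⟨f, hf, g, hg, hne, rfl⟩

theorem Zs_mem_fam2 (hD : D.Good) {R : Flat α φ} (hR : R ∈ D.flats) : Zs R ∈ D.fam2 :=
  Or.inr ⟨R, hR, _, FF_mem_fam1 (hD.mem2 R hR) (hD.mem1 R hR) (hD.ne R hR).symm,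
    FF_self_ne_Ps hD hR hR, (Zs_eq hD hR).symm⟩

theorem Zs_max (hD : D.Good) {R : Flat α φ} (hR : R ∈ D.flats) {Z : Set (W α φ)}
    (hZ : Z ∈ D.fam2) (h : Zs R ⊆ Z) : Z = Zs R := by
  have hp : W.p R ∈ Z := h (p_mem_Zs.2 rfl)
  rcases hZ with ⟨⟨f, hf, g, hg, hne, rfl⟩, -⟩ | ⟨T, hT, Y, ⟨f, hf, g, hg, hne, rfl⟩, hY, rfl⟩
  · exact absurd hp p_mem_FF
  · have h1 : R = T := by
      rcases hp with ⟨h1, -⟩ | h1
      · exact absurd h1 p_mem_Ps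
      · exact Sum.inl_injective (Sum.inr_injective (Sum.inr_injective h1))
    subst h1
    change FF D f g ≠ Ps R at hY
    obtain ⟨rfl, rfl⟩ := FF_sub_iff hD hR hf hg hne hY (by
      intro a ha
      rcases h (v_mem_Zs.2 ha) with ⟨-, h2⟩ | h2
      · exact h2
      · cases h2)
    exact Zs_eq hD hR

/-! ## the union of the visible sets -/

theorem FF_mem_fam2 (hD : D.Good) {R : Flat α φ} (hR : R ∈ D.flats) {f g : φ}
    (hf : f ∈ D.fcodes) (hg : g ∈ D.fcodes) (hne : f ≠ g) (h1 : D.eIn R f) (h2 : D.eIn R g)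
    (h : FF D f g ≠ Ps R) : FF D f g ∈ D.vis3 R := by
  have hes : es R ⊆ FF D f g := (es_sub_FF hD hR).2 ⟨h1, h2⟩
  refine ⟨Or.inl ⟨FF_mem_fam1 hf hg hne, ?_⟩, hes, ?_⟩
  · intro S hS hSe
    have h3 : es R ⊆ Ps S := by rw [← hSe]; exact hes
    obtain rfl := es_sub_Ps hD hR hS h3
    exact h hSe
  · intro he
    have h3 : W.x f ∈ FF D f g := x_mem_FF.2 rfl
    rw [he] at h3
    exact x_mem_Zs h3

theorem vis_v (hD : D.Good) {R : Flat α φ} (hR : R ∈ D.flats) {a : α} (ha : a ∈ D.verts) :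
    (∃ Z ∈ D.vis3 R, W.v a ∈ Z) ↔ D.qadj R a := by
  constructor
  · rintro ⟨Z, ⟨hZ, hes, -⟩, hv⟩
    rcases hZ with ⟨⟨f, hf, g, hg, hne, rfl⟩, -⟩ | ⟨T, hT, Y, -, -, rfl⟩
    · have h1 := (es_sub_FF hD hR).1 hes
      have h2 := v_mem_FF.1 hv
      exact Or.inr ⟨f, hf, g, hg, hne, h1.1, h1.2, h2.2.1, h2.2.2⟩
    · have h1 := es_sub_Ps hD hR hT ((es_sub_of_insert_p hes).trans Set.inter_subset_left)
      subst h1
      rcases hv with ⟨h2, -⟩ | h2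
      · exact Or.inl (v_mem_Ps.1 h2)
      · cases h2
  · have h1 : a ∈ R.1 → ∃ Z ∈ D.vis3 R, W.v a ∈ Z := fun h =>
      ⟨FF D R.2.2 R.2.1, FF_mem_fam2 hD hR (hD.mem2 R hR) (hD.mem1 R hR) (hD.ne R hR).symm
        (eIn_self2 hD hR) (eIn_self1 hD hR) (FF_self_ne_Ps hD hR hR), (v_mem_FF_self hD hR).2 h⟩
    rintro (h | ⟨f, hf, g, hg, hne, h2, h3, h4, h5⟩)
    · exact h1 h
    · by_cases h6 : FF D f g = Ps R
      · apply h1
        rw [← v_mem_Ps, ← h6]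
        exact v_mem_FF.2 ⟨ha, h4, h5⟩
      · exact ⟨FF D f g, FF_mem_fam2 hD hR hf hg hne h2 h3 h6, v_mem_FF.2 ⟨ha, h4, h5⟩⟩

theorem FF_third (hD : D.Good) {R : Flat α φ} (hR : R ∈ D.flats) {g : φ} (hg : g ∈ D.fcodes)
    (h1 : g ≠ R.2.1) (h2 : g ≠ R.2.2) : FF D R.2.1 g ≠ Ps R := by
  intro h
  have h3 : ∀ a ∈ R.1, D.mem g a := by
    intro a ha
    have h4 : W.v a ∈ Ps R := v_mem_Ps.2 ha
    rw [← h] at h4
    exact (v_mem_FF.1 h4).2.2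
  rcases facet_of_sub hD hR hg h3 with h4 | h4
  · exact h1 h4
  · exact h2 h4

theorem vis_x (hD : D.Good) {R : Flat α φ} (hR : R ∈ D.flats) {f : φ} (hf : f ∈ D.fcodes) :
    (∃ Z ∈ D.vis3 R, W.x f ∈ Z) ↔ D.eIn R f := by
  constructor
  · rintro ⟨Z, ⟨hZ, hes, -⟩, hv⟩
    rcases hZ with ⟨⟨f', hf', g, hg, hne, rfl⟩, -⟩ | ⟨T, hT, Y, -, -, rfl⟩
    · have h1 := (es_sub_FF hD hR).1 hes
      have h2 := x_mem_FF.1 hv
      rw [h2]
      exact h1.1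
    · have h1 := es_sub_Ps hD hR hT ((es_sub_of_insert_p hes).trans Set.inter_subset_left)
      subst h1
      rcases hv with ⟨h2, -⟩ | h2
      · rw [x_mem_Ps.1 h2]
        exact eIn_self1 hD hR
      · cases h2
  · intro h
    by_cases h1 : f = R.2.1
    · obtain ⟨g, hg, h2, h3, h4⟩ := third hD hR
      refine ⟨FF D f g, FF_mem_fam2 hD hR hf hg ?_ h h2 ?_, x_mem_FF.2 rfl⟩
      · rw [h1]; exact h3.symm
      · rw [h1]; exact FF_third hD hR hg h3 h4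
    · refine ⟨FF D f R.2.1, FF_mem_fam2 hD hR hf (hD.mem1 R hR) h1 h (eIn_self1 hD hR) ?_,
        x_mem_FF.2 rfl⟩
      intro h2
      have h3 : W.x f ∈ FF D f R.2.1 := x_mem_FF.2 rfl
      rw [h2] at h3
      exact h1 (x_mem_Ps.1 h3)

theorem vis_p (hD : D.Good) {R S : Flat α φ} (hR : R ∈ D.flats) :
    (∃ Z ∈ D.vis3 R, W.p S ∈ Z) ↔ S = R := by
  constructor
  · rintro ⟨Z, ⟨hZ, hes, -⟩, hv⟩
    rcases hZ with ⟨⟨f', hf', g, hg, hne, rfl⟩, -⟩ | ⟨T, hT, Y, -, -, rfl⟩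
    · exact absurd hv p_mem_FF
    · have h1 := es_sub_Ps hD hR hT ((es_sub_of_insert_p hes).trans Set.inter_subset_left)
      subst h1
      rcases hv with ⟨h2, -⟩ | h2
      · exact absurd h2 p_mem_Ps
      · exact Sum.inl_injective (Sum.inr_injective (Sum.inr_injective h2))
  · rintro rfl
    obtain ⟨g, hg, h2, h3, h4⟩ := third hD hR
    refine ⟨(Ps S ∩ FF D S.2.1 g) ∪ {W.p S}, ⟨Or.inr ⟨S, hR, _, FF_mem_fam1 (hD.mem1 S hR) hg
      h3.symm, FF_third hD hR hg h3 h4, rfl⟩, ?_, ?_⟩, Or.inr rfl⟩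
    · refine Set.Subset.trans (Set.subset_inter (es_sub_Ps_self S) ?_) Set.subset_union_left
      exact (es_sub_FF hD hR).2 ⟨eIn_self1 hD hR, h2⟩
    · intro h5
      have h6 : W.x S.2.1 ∈ (Ps S ∩ FF D S.2.1 g) ∪ {W.p S} :=
        Or.inl ⟨x_mem_Ps.2 rfl, x_mem_FF.2 rfl⟩
      rw [h5] at h6
      exact x_mem_Zs h6

end basic

/-! ## the third step -/

variable [DecidableEq α] [DecidableEq φ]

/-- the special edge, as a finite set -/
def eF : W α φ → Finset (W α φ)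
  | .inr (.inr (.inr R)) => ((R.1.take 2).map W.v).toFinset
  | _ => ∅

/-- the pyramid with apex `p`, as a finite set -/
def ZF : W α φ → Finset (W α φ)
  | .inr (.inr (.inr R)) => (R.1.map W.v).toFinset ∪ {W.p R}
  | _ => ∅

theorem coe_eF (R : Flat α φ) : (eF (W.q R) : Set (W α φ)) = es R := by
  ext w
  simp only [eF, es, List.coe_toFinset, List.mem_map, Set.mem_ofPred_eq]
  constructor
  · rintro ⟨a, ha, rfl⟩
    exact ⟨a, ha, rfl⟩
  · rintro ⟨a, ha, rfl⟩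
    exact ⟨a, ha, rfl⟩

theorem coe_ZF (R : Flat α φ) : (ZF (W.q R) : Set (W α φ)) = Zs R := by
  ext w
  simp only [ZF, Zs, Finset.coe_union, List.coe_toFinset, List.mem_map, Finset.coe_singleton,
    Set.mem_union, Set.mem_ofPred_eq]
  constructor
  · rintro (⟨a, ha, rfl⟩ | h)
    · exact Or.inl ⟨a, ha, rfl⟩
    · exact Or.inr h
  · rintro (⟨a, ha, rfl⟩ | h)
    · exact Or.inl ⟨a, ha, rfl⟩
    · exact Or.inr h

/-- the new vertices -/
def BB (D : Data α φ) : Finset (W α φ) := (D.flats.map W.q).toFinset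

theorem mem_BB {D : Data α φ} {z : W α φ} : z ∈ BB D ↔ ∃ R ∈ D.flats, z = W.q R := by
  unfold BB
  rw [List.mem_toFinset, List.mem_map]
  constructor
  · rintro ⟨R, hR, rfl⟩
    exact ⟨R, hR, rfl⟩
  · rintro ⟨R, hR, rfl⟩
    exact ⟨R, hR, rfl⟩

theorem mem_l2 {D : Data α φ} {w : W α φ} : w ∈ D.l2.toFinset ↔
    (∃ a ∈ D.verts, w = W.v a) ∨ (∃ f ∈ D.fcodes, w = W.x f) ∨ (∃ R ∈ D.flats, w = W.p R) := by
  rw [List.mem_toFinset, Data.l2, Data.l1, Data.l0, List.mem_append, List.mem_append,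
    List.mem_map, List.mem_map, List.mem_map, or_assoc]
  constructor
  · rintro (⟨a, ha, rfl⟩ | ⟨a, ha, rfl⟩ | ⟨a, ha, rfl⟩)
    · exact Or.inl ⟨a, ha, rfl⟩
    · exact Or.inr (Or.inl ⟨a, ha, rfl⟩)
    · exact Or.inr (Or.inr ⟨a, ha, rfl⟩)
  · rintro (⟨a, ha, rfl⟩ | ⟨a, ha, rfl⟩ | ⟨a, ha, rfl⟩)
    · exact Or.inl ⟨a, ha, rfl⟩
    · exact Or.inr (Or.inl ⟨a, ha, rfl⟩)
    · exact Or.inr (Or.inr ⟨a, ha, rfl⟩)

theorem l3_eq (D : Data α φ) : D.l3.toFinset = D.l2.toFinset ∪ BB D := by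
  rw [Data.l3, List.toFinset_append]
  rfl

theorem disj (D : Data α φ) : Disjoint D.l2.toFinset (BB D) := by
  rw [Finset.disjoint_left]
  intro w hw hB
  obtain ⟨R, -, rfl⟩ := mem_BB.1 hB
  rcases mem_l2.1 hw with ⟨a, -, h⟩ | ⟨a, -, h⟩ | ⟨a, -, h⟩ <;> cases h

/-- the family of visible sets -/
def Vs (D : Data α φ) (z : W α φ) : Set (Set (W α φ)) :=
  {Z | Z ∈ D.fam2 ∧ (eF z : Set (W α φ)) ⊆ Z ∧ Z ≠ ZF z}

theorem Vs_eq (D : Data α φ) (R : Flat α φ) : Vs D (W.q R) = D.vis3 R := by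
  unfold Vs Data.vis3
  rw [coe_eF, coe_ZF]

theorem fam3_eq (D : Data α φ) : addFam D.fam2 (BB D) (Vs D) = D.fam3 := by
  ext Z
  unfold addFam Data.fam3
  simp only [Set.mem_union, Set.mem_ofPred_eq]
  constructor
  · rintro (⟨h1, h2⟩ | ⟨z, hz, Z₁, h1, h2, Z₂, h3, h4, h5⟩)
    · refine Or.inl ⟨h1, fun R hR h => ?_⟩
      exact h2 _ (mem_BB.2 ⟨R, hR, rfl⟩) (by rw [Vs_eq]; exact h)
    · obtain ⟨R, hR, rfl⟩ := mem_BB.1 hz
      rw [Vs_eq] at h2 h4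
      exact Or.inr ⟨R, hR, Z₁, h2, Z₂, h3, h4, h5⟩
  · rintro (⟨h1, h2⟩ | ⟨R, hR, Z₁, h2, Z₂, h3, h4, h5⟩)
    · refine Or.inl ⟨h1, fun z hz h => ?_⟩
      obtain ⟨R, hR, rfl⟩ := mem_BB.1 hz
      rw [Vs_eq] at h
      exact h2 R hR h
    · refine Or.inr ⟨W.q R, mem_BB.2 ⟨R, hR, rfl⟩, Z₁, h2.1, ?_, Z₂, h3, ?_, h5⟩
      · rw [Vs_eq]; exact h2
      · rw [Vs_eq]; exact h4

theorem not_all {D : Data α φ} (hD : D.Good) :
    (D.l2.toFinset : Set (W α φ)) ∉ D.fam2 := by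
  rintro (⟨⟨f, hf, g, hg, hfg, h⟩, -⟩ | ⟨T, hT, Y, -, -, h⟩)
  · have h1 : W.x g ∈ (D.l2.toFinset : Set (W α φ)) :=
      Finset.mem_coe.2 (mem_l2.2 (Or.inr (Or.inl ⟨g, hg, rfl⟩)))
    rw [h] at h1
    exact hfg (x_mem_FF.1 (h1 : W.x g ∈ FF D f g)).symm
  · have h1 : W.x T.2.2 ∈ (D.l2.toFinset : Set (W α φ)) :=
      Finset.mem_coe.2 (mem_l2.2 (Or.inr (Or.inl ⟨_, hD.mem2 T hT, rfl⟩)))
    rw [h] at h1
    rcases h1 with ⟨h2, -⟩ | h2
    · exact hD.ne T hT (x_mem_Ps.1 h2).symm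
    · cases h2

theorem eF_card {D : Data α φ} (hD : D.Good) {R : Flat α φ} (hR : R ∈ D.flats) :
    2 ≤ (eF (W.q R)).card := by
  obtain ⟨a0, a1, a2, a3, l, hl⟩ := shape hD hR
  have hnd := hD.nd R hR
  rw [hl] at hnd
  simp only [List.nodup_cons, List.mem_cons, not_or] at hnd
  have h : eF (W.q R) = {W.v a0, W.v a1} := by
    simp only [eF, hl, List.take_succ_cons, List.take_zero, List.map_cons, List.map_nil,
      List.toFinset_cons, List.toFinset_nil]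
    rfl
  rw [h, Finset.card_pair]
  intro h2
  exact hnd.1.1 (Sum.inl_injective h2)

/-- G4-G4 (third step: the `q`-vertices). -/
theorem gen_l3 {D : Data α φ} (hD : D.Good) (h : Realizable D.l2.toFinset D.fam2) :
    Realizable D.l3.toFinset D.fam3 := by
  rw [l3_eq, ← fam3_eq]
  refine place (disj D) h eF ZF ?_ ?_ ?_ ?_ (not_all hD) ?_
  · intro z hz
    obtain ⟨R, hR, rfl⟩ := mem_BB.1 hz
    rw [← Finset.card_pos]
    have := eF_card hD hR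
    omega
  · intro z hz
    obtain ⟨R, hR, rfl⟩ := mem_BB.1 hz
    rw [← Finset.coe_subset, coe_eF, coe_ZF]
    exact es_sub_Zs_self R
  · intro z hz
    obtain ⟨R, hR, rfl⟩ := mem_BB.1 hz
    rw [coe_ZF]
    exact Zs_mem_fam2 hD hR
  · intro z hz Z hZ hs
    obtain ⟨R, hR, rfl⟩ := mem_BB.1 hz
    rw [coe_ZF] at hs ⊢
    exact Zs_max hD hR hZ hs
  · intro z hz y hy hzy Z hZ h1 h2
    obtain ⟨R, hR, rfl⟩ := mem_BB.1 hz
    obtain ⟨S, hS, rfl⟩ := mem_BB.1 hy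
    rw [coe_eF] at h1 h2
    exact hzy (congrArg W.q (fam2_unique hD hR hS hZ h1 h2))

theorem FAdj_symm {V : Type} {A : Finset V} {𝓩 : Set (Set V)} {u v : V} (h : FAdj A 𝓩 u v) :
    FAdj A 𝓩 v u := by
  intro t ht h1 h2
  obtain ⟨Z, h3, h4, h5, h6⟩ := h t ht h2 h1
  exact ⟨Z, h3, h5, h4, h6⟩

theorem adjW_q {D : Data α φ} (hD : D.Good) {R : Flat α φ} (hR : R ∈ D.flats) {w : W α φ}
    (hw : w ∈ D.l2.toFinset) :
    ((∃ Z ∈ D.vis3 R, w ∈ Z) ↔ D.adjW (W.q R) w) ∧ (D.adjW (W.q R) w ↔ D.adjW w (W.q R)) := by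
  rcases mem_l2.1 hw with ⟨a, ha, rfl⟩ | ⟨f, hf, rfl⟩ | ⟨S, hS, rfl⟩
  · exact ⟨vis_v hD hR ha, Iff.rfl⟩
  · exact ⟨vis_x hD hR hf, Iff.rfl⟩
  · exact ⟨vis_p hD hR, Iff.rfl⟩

/-- G4-G4 -/
theorem gen_facts3 {D : Data α φ} (hD : D.Good) : StepFacts D.l3.toFinset D.fam3 D.adjW := by
  have F := Pool.Agent.Helper22.G4.gen_facts2 hD
  obtain ⟨c1, c2, c3, c4, c5⟩ := add_adj (disj D) F.sub (Vs D) (fun z _ Z hZ => hZ.1)
    (by
      intro z hz
      obtain ⟨R, hR, rfl⟩ := mem_BB.1 hz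
      rw [Vs_eq]
      exact ⟨_, FF_mem_fam2 hD hR (hD.mem2 R hR) (hD.mem1 R hR) (hD.ne R hR).symm
        (eIn_self2 hD hR) (eIn_self1 hD hR) (FF_self_ne_Ps hD hR hR)⟩)
    (by
      intro z hz y hy hzy
      obtain ⟨R, hR, rfl⟩ := mem_BB.1 hz
      obtain ⟨S, hS, rfl⟩ := mem_BB.1 hy
      rw [Vs_eq, Vs_eq, Set.disjoint_left]
      intro Z h1 h2
      exact hzy (congrArg W.q (fam2_unique hD hR hS h1.1 h1.2.1 h2.2.1)))
    eF
    (by
      intro z hz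
      obtain ⟨R, hR, rfl⟩ := mem_BB.1 hz
      rw [← Finset.coe_subset, coe_eF]
      rintro w ⟨a, ha, rfl⟩
      exact Finset.mem_coe.2 (mem_l2.2 (Or.inl ⟨a, hD.sub R hR a (mem_of_take ha), rfl⟩)))
    (fun z _ Z hZ => hZ.2.1)
    (by
      intro z hz
      obtain ⟨R, hR, rfl⟩ := mem_BB.1 hz
      exact eF_card hD hR)
    (by
      intro z hz _
      obtain ⟨R, hR, rfl⟩ := mem_BB.1 hz
      refine ⟨Zs R, Zs_mem_fam2 hD hR, ?_, ?_⟩
      · rw [Vs_eq]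
        intro h
        exact h.2.2 rfl
      · rw [coe_eF]
        exact es_sub_Zs_self R)
    F.vert
    (by
      have h1 : (D.verts.map (W.v : α → W α φ)).toFinset ⊆ D.l2.toFinset := by
        intro w hw
        rw [List.mem_toFinset, List.mem_map] at hw
        obtain ⟨a, ha, rfl⟩ := hw
        exact mem_l2.2 (Or.inl ⟨a, ha, rfl⟩)
      have h2 := Finset.card_le_card h1
      rw [List.toFinset_card_of_nodup (hD.vnd.map Sum.inl_injective), List.length_map] at h2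
      have := hD.big
      omega)
  rw [fam3_eq] at c1 c2 c3 c4 c5
  rw [← l3_eq] at c1 c2 c3 c4 c5
  refine ⟨c1, c2, ?_⟩
  have hq : ∀ R ∈ D.flats, ∀ w ∈ D.l2.toFinset,
      (FAdj D.l3.toFinset D.fam3 (W.q R) w ↔ D.adjW (W.q R) w) := by
    intro R hR w hw
    rw [c4 _ (mem_BB.2 ⟨R, hR, rfl⟩) w hw, Vs_eq]
    exact (adjW_q hD hR hw).1
  intro u hu w hw huw
  rw [l3_eq, Finset.mem_union] at hu hw
  rcases hu with hu | hu <;> rcases hw with hw | hw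
  · rw [c3 u hu w hw huw]
    exact F.adj u hu w hw huw
  · obtain ⟨R, hR, rfl⟩ := mem_BB.1 hw
    rw [← (adjW_q hD hR hu).2, ← hq R hR u hu]
    exact ⟨FAdj_symm, FAdj_symm⟩
  · obtain ⟨R, hR, rfl⟩ := mem_BB.1 hu
    exact hq R hR w hw
  · refine iff_of_false (c5 u hu w hw huw) ?_
    obtain ⟨R, hR, rfl⟩ := mem_BB.1 hu
    obtain ⟨S, hS, rfl⟩ := mem_BB.1 hw
    exact fun h => h

end Pool.Agent.Helper71.G4
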