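import Pool.Agent.Helper22.G4.Poly

/-! # G4-T5: incidence and the list of vertices are computable in polynomial time -/

namespace Pool.Agent.Helper71.G4

open Pool.Agent.Helper22.G4 Pool.Agent.Helper89 Pool.Agent.Helper91.PolyTime

/-- G4-T5 -/
theorem ptf_mem : PTF fun p : NF × Fc × Vx => p.1.data.mem p.2.1 p.2.2 := by
  have v1 : PTF fun p : NF × Fc × Vx => p.2.2.1 := PTF.id.snd.snd.fst
  have v2 : PTF fun p : NF × Fc × Vx => p.2.2.2.1 := PTF.id.snd.snd.snd.fst
  have v3 : PTF fun p : NF × Fc × Vx => p.2.2.2.2.1 := PTF.id.snd.snd.snd.snd.fst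
  have v4 : PTF fun p : NF × Fc × Vx => p.2.2.2.2.2 := PTF.id.snd.snd.snd.snd.snd
  have f : PTF fun p : NF × Fc × Vx => p.2.1 := PTF.id.snd.fst
  have h : PTF fun p : NF × Fc × Vx => if p.2.2.1 = 0 then
      (decide (p.2.2.2.1 = p.2.1.1.1) || decide (p.2.2.2.1 = p.2.1.1.2.1) ||
        decide (p.2.2.2.1 = p.2.1.1.2.2)) &&
        (decide (p.2.2.2.2.1 ≤ p.2.1.2.1.2) && decide (p.2.1.2.1.1 ≤ p.2.2.2.2.2))
      else if p.2.2.1 = 1 then p.2.1.2.2.1.2
      else if p.2.2.1 = 2 then p.2.1.2.2.1.1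
      else if p.2.2.1 = 3 then decide (p.2.1.2.2.2.1 = p.2.2.2.1 + 1)
      else decide (p.2.1.2.2.2.2 = p.2.2.2.1 + 1) :=
    PTF.ite (PTF.eq v1 (PTF.const 0))
      (PTF.and (PTF.or (PTF.or (PTF.eq v2 f.fst.fst) (PTF.eq v2 f.fst.snd.fst))
        (PTF.eq v2 f.fst.snd.snd)) (PTF.and (PTF.le v3 f.snd.fst.snd) (PTF.le f.snd.fst.fst v4)))
      (PTF.ite (PTF.eq v1 (PTF.const 1)) f.snd.snd.fst.snd
        (PTF.ite (PTF.eq v1 (PTF.const 2)) f.snd.snd.fst.fst
          (PTF.ite (PTF.eq v1 (PTF.const 3)) (PTF.eq f.snd.snd.snd.fst (PTF.succ v2))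
            (PTF.eq f.snd.snd.snd.snd (PTF.succ v2)))))
  exact h

section zip

variable {α β : Type}

theorem zip_eq (l : List α) (m : List β) : l.zip m = (List.range l.length).flatMap fun i =>
    match l[i]? with
    | none => []
    | some a => match m[i]? with
      | none => []
      | some b => [(a, b)] := by
  induction l generalizing m with
  | nil => rfl
  | cons a l ih =>
    cases m with
    | nil =>
      rw [List.zip_nil_right]
      symm
      rw [List.flatMap_eq_nil_iff]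
      intro i _
      cases (a :: l)[i]? <;> rfl
    | cons b m =>
      rw [List.zip_cons_cons, List.length_cons, List.range_succ_eq_map, List.flatMap_cons,
        List.flatMap_map, ih]
      rfl

end zip

section generic

variable {ι α β φ : Type} [PEnc ι] [PEnc α] [PEnc β] [PEnc φ]

theorem ptf_zip {l : ι → List α} {m : ι → List β} (hl : PTF l) (hm : PTF m) :
    PTF fun i => (l i).zip (m i) := by
  refine (PTF.flatMap (f := fun (i : ι) (k : ℕ) => match (l i)[k]? with
    | none => []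
    | some a => match (m i)[k]? with
      | none => []
      | some b => [(a, b)]) (PTF.range (PTF.length hl)) ?_).of_eq fun i => (zip_eq _ _).symm
  refine PTF.optCase (PTF.getElem? PTF.id.snd (hl.comp PTF.id.fst)) (PTF.const []) ?_
  exact PTF.optCase (α := (ι × ℕ) × α) (s := fun p b => [(p.2, b)])
    (PTF.getElem? PTF.id.fst.snd (hm.comp PTF.id.fst.fst)) (PTF.const [])
    (PTF.cons (PTF.pair PTF.id.fst.snd PTF.id.snd) (PTF.const []))

theorem ptf_take1 {l : ι → List α} (hl : PTF l) : PTF fun i => (l i).take 1 := by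
  refine (PTF.listCase (s := fun _ b _ => [b]) hl (PTF.const [])
    (PTF.cons PTF.id.snd.fst (PTF.const []))).of_eq fun i => ?_
  cases l i <;> rfl

theorem ptf_cycPairs {l : ι → List α} (hl : PTF l) : PTF fun i => cycPairs (l i) :=
  ptf_zip hl (PTF.append hl.tail (ptf_take1 hl))

theorem ptf_v {f : ι → α} (hf : PTF f) : PTF fun i => (W.v (f i) : W α φ) := PTF.inl hf

theorem ptf_x {f : ι → φ} (hf : PTF f) : PTF fun i => (W.x (f i) : W α φ) :=
  PTF.inr (PTF.inl hf)

theorem ptf_p {f : ι → Flat α φ} (hf : PTF f) : PTF fun i => (W.p (f i) : W α φ) :=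
  PTF.inr (PTF.inr (PTF.inl hf))

theorem ptf_q {f : ι → Flat α φ} (hf : PTF f) : PTF fun i => (W.q (f i) : W α φ) :=
  PTF.inr (PTF.inr (PTF.inr hf))

theorem ptf_Ts {R : ι → Flat α φ} (hR : PTF R) : PTF fun i => Ts (R i) := by
  have hc : PTF fun i => cycPairs (R i).1 := ptf_cycPairs hR.fst
  have hR' : PTF fun p : ι × (α × α) => R p.1 := hR.comp PTF.id.fst
  have h1 : PTF fun p : ι × (α × α) => p.2.1 := PTF.id.snd.fst
  have h2 : PTF fun p : ι × (α × α) => p.2.2 := PTF.id.snd.snd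
  refine PTF.append (PTF.flatMap (f := fun (i : ι) (e : α × α) =>
    [[W.p (R i), W.x (R i).2.1, W.v e.1, W.v e.2], [W.q (R i), W.x (R i).2.2, W.v e.1, W.v e.2]])
    (PTF.drop (PTF.const 1) hc) ?_)
    (PTF.flatMap (f := fun (i : ι) (e : α × α) =>
    [[W.p (R i), W.q (R i), W.v e.1, W.v e.2], [W.p (R i), W.q (R i), W.x (R i).2.1, W.v e.1],
      [W.p (R i), W.q (R i), W.x (R i).2.1, W.v e.2]]) (ptf_take1 hc) ?_)
  · exact PTF.cons (PTF.cons (ptf_p hR') (PTF.cons (ptf_x hR'.snd.fst) (PTF.cons (ptf_v h1)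
      (PTF.cons (ptf_v h2) (PTF.const []))))) (PTF.cons (PTF.cons (ptf_q hR')
      (PTF.cons (ptf_x hR'.snd.snd) (PTF.cons (ptf_v h1) (PTF.cons (ptf_v h2) (PTF.const [])))))
      (PTF.const []))
  · exact PTF.cons (PTF.cons (ptf_p hR') (PTF.cons (ptf_q hR') (PTF.cons (ptf_v h1)
      (PTF.cons (ptf_v h2) (PTF.const []))))) (PTF.cons (PTF.cons (ptf_p hR')
      (PTF.cons (ptf_q hR') (PTF.cons (ptf_x hR'.snd.fst) (PTF.cons (ptf_v h1) (PTF.const [])))))
      (PTF.cons (PTF.cons (ptf_p hR') (PTF.cons (ptf_q hR') (PTF.cons (ptf_x hR'.snd.fst)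
      (PTF.cons (ptf_v h2) (PTF.const []))))) (PTF.const [])))

/-- G4-T5 -/
theorem ptf_allX {ι α φ : Type} [PEnc ι] [PEnc α] [PEnc φ] [DecidableEq α] [DecidableEq φ]
    {D : ι → Data α φ} (hv : PTF fun i => (D i).verts) (hf : PTF fun i => (D i).fcodes)
    (hr : PTF fun i => (D i).flats) : PTF fun i => (D i).allX := by
  have hW : PTF fun i => (D i).allW := by
    refine PTF.append (PTF.map (f := fun (_ : ι) (a : α) => (W.v a : W α φ)) hv
      (ptf_v PTF.id.snd)) (PTF.append (PTF.map (f := fun (_ : ι) (a : φ) => (W.x a : W α φ)) hf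
      (ptf_x PTF.id.snd)) (PTF.append (PTF.map (f := fun (_ : ι) (a : Flat α φ) =>
      (W.p a : W α φ)) hr (ptf_p PTF.id.snd)) (PTF.map (f := fun (_ : ι) (a : Flat α φ) =>
      (W.q a : W α φ)) hr (ptf_q PTF.id.snd))))
  exact PTF.append (PTF.map (f := fun (_ : ι) (a : W α φ) => (Sum.inl a : X α φ)) hW
    (PTF.inl PTF.id.snd)) (PTF.map (f := fun (_ : ι) (T : List (W α φ)) => (Sum.inr T : X α φ))
    (PTF.flatMap (f := fun (_ : ι) (R : Flat α φ) => Ts R) hr (ptf_Ts PTF.id.snd))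
    (PTF.inr PTF.id.snd))

end generic

end Pool.Agent.Helper71.G4
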